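import Pool.Agent.R782.Bal.Main

/-!
# The Charney-Davis conjecture for colourwise subdivided flag spheres

`chiW G = ∑_T (-1/2)^|T|`, over all cliques `T` of `G`, is the Charney-Davis quantity `λ(L)` of the flag complex `L`
of the graph `G`. `HSph n G`: `L` is a homology manifold with the homology of the `(n-1)`-sphere, over the reals.

(1) Let `X` be a simplicial complex embedded in the sphere of dimension `2 m` (for example a triangulation of the
sphere of dimension `2 m - 1`), with a colouring of its vertices, and let `cs X col` be the graph of the subdivision
of `X` in which only the monochromatic simplices are barycentrically subdivided. The colouring is small if there are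
numbers `a c` with sum at most `m + 1` such that the simplices of colour `c` have at most `2 a c` vertices; for
example, there are `m + 1` colours and no monochromatic triangles; then `cs X col` arises from `X` by the
subdivision of the monochromatic edges.

(2) The class `SQ (m + 1)` has as a base the flag complexes embedded in the sphere of dimension `2 m` which are
properly coloured by `m + 1` colours, and it is closed under the operations listed in its definition.
-/

set_option autoImplicit false

namespace Pool.Agent.Results.MP_fd533b_co.ColouredSpheres

open Pool.Agent.W907.SG Pool.Agent.R782.Bal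
open Pool.Agent.TH652.Above (HSph chi_sign)

/-- The inequality `(-1)^m λ(L) ≥ 0` for the flag homology spheres `L` of dimension `2 m - 1` of the following
graphs: (1) `cs X col`, for `X` embedded in the sphere of dimension `2 m` and a small colouring of its vertices;
(2) the graphs in the class `SQ (m + 1)`. -/
theorem result :
    (∀ (m N k : ℕ) (X : Finset (Finset (Fin N))) (col : Fin N → Fin k),
      (∀ σ ∈ X, ∀ τ : Finset (Fin N), τ ⊆ σ → τ ∈ X) → Small m X col → EmbX m X col →
      ∀ [Fintype (MF X col)] [LinearOrder (MF X col)], HSph (2 * m) (cs X col) →
        0 ≤ (-1 : ℚ) ^ m * chiW (cs X col)) ∧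
    (∀ (m : ℕ) (V : Type) [Fintype V] [LinearOrder V] (G : SimpleGraph V), HSph (2 * m) G → SQ (m + 1) G →
      0 ≤ (-1 : ℚ) ^ m * chiW G) := by
  refine ⟨?_, ?_⟩
  · intro m N k X col hX hs hE _ _ hS
    exact chi_sign _ fun i hi => singer_cs (Or.inl rfl) hX hs hE hS i (by omega)
  · intro m V _ _ G hS hA
    exact charney_davis_SQ hS hA

end Pool.Agent.Results.MP_fd533b_co.ColouredSpheres
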