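import Pool.Agent.R580.CD.Amp

/-!
# The Charney–Davis inequality improves itself

The clique complex of a finite graph `G` (these are all finite flag complexes) is a generalized homology
`(d - 1)`-sphere if, for every simplex `T` (the empty one included), the link of `T` has the homology of the
sphere of dimension `d - 1 - |T|`, with coefficients in every field (`GHS d G`; by the universal coefficient
theorem this is the same as the condition on the integral homology). `omega G = ∑_T (-1/2)^|T|` is the
Charney–Davis quantity `λ`. The inequality `(-1)^n omega G ≥ 0` for all flag generalized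
homology `(2n-1)`-spheres is known for `n = 1, 2`.

If `S` is a flag generalized homology `(2m-1)`-sphere with `N` vertices then `|omega S| = O(N^m)`, by the upper
bound theorem.

(1) If the inequality fails for one flag generalized homology `(2n-1)`-sphere, then for every `m ≥ n` there are
`c > 0` and flag generalized homology `(2m-1)`-spheres with arbitrarily large numbers `N` of vertices and
`(-1)^m omega ≤ - c N^(m-n+1)`.

(2) The inequality in the dimension `2n - 1` is equivalent to `(-1)^n omega ≥ - o(N)` in the same dimension.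

(3) The inequality in all dimensions is equivalent to an unbounded power saving: for each `B` there is some
`m ≥ B` such that `(-1)^m omega ≥ - O(N^(m-B))` for the flag generalized homology `(2m-1)`-spheres.

Proof. The double of `S` along the complement of the open star of a vertex is a flag generalized homology sphere,
and `omega` is doubled; the join of `S` with the cycle with `k` vertices is one of dimension `2n + 1`, and `omega`
is multiplied by `1 - k/4`. For the double one needs that the complement of a vertex in a homology sphere is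
acyclic.
-/

set_option autoImplicit false

namespace Pool.Agent.Results.MP_fd533b_co.SelfImprovement

open Pool.Agent.R580.CD

/-- The right-angled inequality (the Charney–Davis conjecture) in the dimension `2 n - 1`. -/
def CharneyDavis (n : ℕ) : Prop :=
  ∀ (V : Type) [Fintype V] [LinearOrder V] (G : SimpleGraph V), GHS (2 * n) G → 0 ≤ (-1) ^ n * omega G

/-- **Self-improvement of the Charney–Davis inequality.** -/
theorem result :
    (∀ (n m : ℕ) (V : Type) [Fintype V] [LinearOrder V] (G : SimpleGraph V), 1 ≤ n → n ≤ m →
      GHS (2 * n) G → (-1) ^ n * omega G < 0 → ∃ c : ℚ, 0 < c ∧ ∀ N : ℕ,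
        ∃ (W : Type) (_ : Fintype W) (_ : LinearOrder W) (H : SimpleGraph W), GHS (2 * m) H ∧
          N ≤ Fintype.card W ∧ (-1) ^ m * omega H ≤ - c * (Fintype.card W : ℚ) ^ (m - n + 1)) ∧
    (∀ n : ℕ, 1 ≤ n → (CharneyDavis n ↔ ∀ ε : ℚ, 0 < ε → ∃ C : ℚ,
      ∀ (W : Type) [Fintype W] [LinearOrder W] (H : SimpleGraph W), GHS (2 * n) H →
        - (ε * Fintype.card W + C) ≤ (-1) ^ n * omega H)) ∧
    ((∀ n : ℕ, 1 ≤ n → CharneyDavis n) ↔ ∀ B : ℕ, ∃ m : ℕ, B ≤ m ∧ ∃ C : ℚ,
      ∀ (W : Type) [Fintype W] [LinearOrder W] (H : SimpleGraph W), GHS (2 * m) H →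
        - C * (Fintype.card W : ℚ) ^ (m - B) ≤ (-1) ^ m * omega H) := by
  refine ⟨fun n m V _ _ G hn hm hS hneg => amplify hn hm hS hneg, fun n hn => ⟨?_, ?_⟩, ⟨?_, ?_⟩⟩
  · intro h ε hε
    refine ⟨0, fun W _ _ H hH => ?_⟩
    have h1 := h W H hH
    have h2 : 0 ≤ ε * Fintype.card W := by positivity
    linarith
  · intro h V _ _ G hS
    by_contra hcon
    push Not at hcon
    obtain ⟨c, hc, hamp⟩ := amplify hn le_rfl hS hcon
    obtain ⟨C, hC⟩ := h (c / 2) (by positivity)
    obtain ⟨N, hN⟩ := exists_nat_gt (2 * C / c)
    obtain ⟨W, i1, i2, H, h1, h2, h3⟩ := hamp N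
    have h4 := hC W H h1
    rw [Nat.sub_self, zero_add, pow_one] at h3
    have h5 : (N : ℚ) ≤ Fintype.card W := by exact_mod_cast h2
    rw [div_lt_iff₀ hc] at hN
    have h6 : (N : ℚ) * c ≤ Fintype.card W * c := mul_le_mul_of_nonneg_right h5 hc.le
    nlinarith
  · intro h B
    refine ⟨B + 1, by omega, 0, fun W _ _ H hH => ?_⟩
    rw [neg_zero, zero_mul]
    exact h (B + 1) (by omega) W H hH
  · intro h n hn V _ _ G hS
    by_contra hcon
    push Not at hcon
    obtain ⟨m, hm, C, hC⟩ := h n
    obtain ⟨c, hc, hamp⟩ := amplify hn hm hS hcon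
    obtain ⟨N, hN⟩ := exists_nat_gt (C / c)
    obtain ⟨W, i1, i2, H, h1, h2, h3⟩ := hamp (N + 1)
    have h4 := hC W H h1
    have h5 : (N : ℚ) + 1 ≤ Fintype.card W := by exact_mod_cast h2
    rw [div_lt_iff₀ hc] at hN
    have h6 : 0 < (Fintype.card W : ℚ) ^ (m - n) := by
      have : (0 : ℚ) < Fintype.card W := by
        have : (0 : ℚ) ≤ N := by positivity
        linarith
      positivity
    have h7 : - C * (Fintype.card W : ℚ) ^ (m - n) ≤ - c * (Fintype.card W : ℚ) ^ (m - n + 1) := h4.trans h3
    rw [pow_succ] at h7
    have h8 : c * (Fintype.card W : ℚ) * (Fintype.card W : ℚ) ^ (m - n) ≤ C * (Fintype.card W : ℚ) ^ (m - n) := by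
      nlinarith
    have h9 := le_of_mul_le_mul_right h8 h6
    nlinarith

end Pool.Agent.Results.MP_fd533b_co.SelfImprovement
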